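import Pool.Agent.KS6_46.CN.Cover
import Pool.Graph.R_seed8.Helper292.ForceCH

/-!
# Covering the line by `ℵ₁` null sets refutes the stability of Corson compacta

If the real line is the union of `ℵ₁` sets of Lebesgue measure zero (`cov(N) = ℵ₁`), then there are
a Corson compact space `L` and a separable compact space `K` which is not Corson compact such that
`C(K)` and `C(L)` are linearly homeomorphic. Hence the statement `(*)` of the problem implies that
the line is not the union of `ℵ₁` null sets.

The space `K` is a compactification of a countable discrete set with Corson compact remainder.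

The construction of `K` and `L` from a tree and the form of the isomorphism follow the library
files `R_seed8/H794R2/CorA`-`CorF`; new is the tree of dyadic intervals whose living nodes are defined by the
density of a compact set in the interval (`DyadA`, `DyadB`).
-/

set_option autoImplicit false

universe v

open Cardinal

namespace Pool.Agent.Results.MP_9ea9ae_an.NullCovering

open Pool.Agent.KS6_46.CN

theorem result :
    -- (1) a covering of the line by `ℵ₁` null sets is enough
    (NullCovering →
      ∃ (K L : Type) (_ : TopologicalSpace K) (_ : TopologicalSpace L)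
        (_ : CompactSpace K) (_ : T2Space K) (_ : CompactSpace L) (_ : T2Space L),
        IsCorsonCompact.{0, 0} L ∧ ¬ IsCorsonCompact.{0, v} K ∧
        TotallyDisconnectedSpace K ∧ TotallyDisconnectedSpace L ∧
        (∃ D : Set K, D.Countable ∧ Dense D ∧ (∀ d ∈ D, IsOpen ({d} : Set K)) ∧
          IsCorsonCompact.{0, 0} (Dᶜ : Set K)) ∧
        TopologicalSpace.SeparableSpace K ∧ Nonempty (C(K, ℝ) ≃L[ℝ] C(L, ℝ))) ∧
    -- (2) such a covering exists under bounded guessing by `ℵ₁` functions
    (BoundedGuessing → NullCovering) ∧
    -- (3) such a covering exists if there is a nonmeager set of reals of size at most `ℵ₁`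
    ((∃ Z : Set ℝ, #Z ≤ ℵ₁ ∧ ¬ IsMeagre Z) → NullCovering) ∧
    -- (4) such a covering exists under the continuum hypothesis
    ((ℵ₁ : Cardinal.{0}) = 𝔠 → NullCovering) ∧
    -- (5) the continuum hypothesis can be forced
    (∃ (P : Type) (_ : Preorder P), Nonempty P ∧ ∀ p : P,
      p ∈ Pool.Agent.Helper292.ForceCH.OmegaOnePreserved P ∧
      p ∈ Pool.Agent.Helper292.ForceCH.CHHolds P) := by
  refine ⟨fun h => ?_, covering_of_guessing, ?_, covering_of_CH, ?_⟩
  · obtain ⟨Λ, F, hΛ, h1, h2, h3, h4⟩ := pointCountable_of_covering h
    obtain ⟨S⟩ := exists_sch F h1 h2 h3 h4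
    exact main S hΛ
  · rintro ⟨Z, hZ, hm⟩
    exact covering_of_nonmeagre hZ hm
  · obtain ⟨P, i, h1, h2⟩ := Pool.Agent.Helper292.ForceCH.exists_forcing
    exact ⟨P, i, h1, fun p => ⟨(h2 p).1, (h2 p).2.2⟩⟩

end Pool.Agent.Results.MP_9ea9ae_an.NullCovering
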